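import Pool.Agent.Helper807.BS.LEngine2
import Pool.Agent.Helper807.BS.LSeq2
import Pool.Agent.Helper807.BS.LSeq1

/-!
Between two sequences compatible with the same frozen values there is a third one with any
prescribed initial value between the two initial values.
-/

set_option autoImplicit false

namespace Pool.Agent.Y518.BS

open MeasureTheory ProbabilityTheory Set Filter Pool.Agent.Helper807.BS
open scoped NNReal ENNReal Topology

theorem Gf_cont (l v : ℝ) : Continuous fun y => Gf l y v (1 / 2) := by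
  unfold Gf
  split_ifs
  · fun_prop
  · apply Continuous.div_const
    apply Continuous.log
    · fun_prop
    · intro y
      have := Real.exp_pos (l * v)
      have := Real.exp_pos (l * y)
      positivity

theorem Gf_shift (l y v s : ℝ) : Gf l (y + s) (v + s) (1 / 2) = Gf l y v (1 / 2) + s := by
  unfold Gf
  split_ifs with h
  · ring
  · have h1 : (1 - 1 / 2 : ℝ) * Real.exp (l * (v + s)) + 1 / 2 * Real.exp (l * (y + s)) =
        Real.exp (l * s) * ((1 - 1 / 2) * Real.exp (l * v) + 1 / 2 * Real.exp (l * y)) := by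
      rw [mul_add, mul_add, Real.exp_add, Real.exp_add]
      ring
    have h2 : (1 - 1 / 2 : ℝ) * Real.exp (l * v) + 1 / 2 * Real.exp (l * y) ≠ 0 := by
      have := Real.exp_pos (l * v)
      have := Real.exp_pos (l * y)
      positivity
    rw [h1, Real.log_mul (Real.exp_pos _).ne' h2, Real.log_exp]
    field_simp
    ring

/-- The recursion satisfied by the values of the surviving path. -/
def Rec (lam : Fin 2 → ℝ) (idx : ℕ → Fin 2) (v y : ℕ → ℝ) : Prop :=
  ∀ n, y n = Gf (lam (idx n)) (y (n + 1)) (v n) (1 / 2)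

/-- The summability condition. -/
def Sm (m : ℝ) (v y : ℕ → ℝ) : Prop :=
  Summable (fun n => (1 / 2 : ℝ) ^ n * Real.exp (m * max (max |y n| |y (n + 1)|) |v n|))

theorem fill {lam : Fin 2 → ℝ} {idx : ℕ → Fin 2} {v y y' : ℕ → ℝ} (hle : ∀ n, y' n ≤ y n)
    (hy : Rec lam idx v y) (hy' : Rec lam idx v y') {c : ℝ} (hc : y' 0 ≤ c) (hc' : c ≤ y 0) :
    ∃ w : ℕ → ℝ, w 0 = c ∧ (∀ n, y' n ≤ w n ∧ w n ≤ y n) ∧ Rec lam idx v w := by
  have step : ∀ (n : ℕ) (x : {x : ℝ // y' n ≤ x ∧ x ≤ y n}),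
      ∃ z : {x : ℝ // y' (n + 1) ≤ x ∧ x ≤ y (n + 1)},
        x.1 = Gf (lam (idx n)) z.1 (v n) (1 / 2) := by
    rintro n ⟨x, hx1, hx2⟩
    have hivt := intermediate_value_Icc (hle (n + 1))
      ((Gf_cont (lam (idx n)) (v n)).continuousOn (s := Set.Icc (y' (n + 1)) (y (n + 1))))
    have hmem : x ∈ Set.Icc (Gf (lam (idx n)) (y' (n + 1)) (v n) (1 / 2))
        (Gf (lam (idx n)) (y (n + 1)) (v n) (1 / 2)) := by
      rw [← hy' n, ← hy n]
      exact ⟨hx1, hx2⟩
    obtain ⟨z, hz, hzx⟩ := hivt hmem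
    exact ⟨⟨z, hz.1, hz.2⟩, hzx.symm⟩
  choose nx hnx using step
  let W : (n : ℕ) → {x : ℝ // y' n ≤ x ∧ x ≤ y n} := fun n =>
    Nat.rec (motive := fun n => {x : ℝ // y' n ≤ x ∧ x ≤ y n}) ⟨c, hc, hc'⟩
      (fun n x => nx n x) n
  exact ⟨fun n => (W n).1, rfl, fun n => (W n).2, fun n => hnx n (W n)⟩

theorem Sm_between {m : ℝ} (hm : 0 < m) {v y y' w : ℕ → ℝ} (h : Sm m v y) (h' : Sm m v y')
    (hw : ∀ n, y' n ≤ w n ∧ w n ≤ y n) : Sm m v w := by
  unfold Sm at *
  refine Summable.of_nonneg_of_le (fun n => by positivity) (fun n => ?_) (h.add h')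
  have hab : ∀ n, |w n| ≤ max |y n| |y' n| := by
    intro n
    rw [abs_le]
    constructor
    · have h1 := neg_abs_le (y' n)
      have h2 := le_max_right |y n| |y' n|
      linarith [(hw n).1]
    · have h1 := le_abs_self (y n)
      have h2 := le_max_left |y n| |y' n|
      linarith [(hw n).2]
  set A := max (max |y n| |y (n + 1)|) |v n| with hA
  set A' := max (max |y' n| |y' (n + 1)|) |v n| with hA'
  have h1 : max (max |w n| |w (n + 1)|) |v n| ≤ max A A' := by
    refine max_le (max_le ?_ ?_) ?_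
    · refine (hab n).trans (max_le_max ?_ ?_)
      · exact (le_max_left _ _).trans (le_max_left _ _)
      · exact (le_max_left _ _).trans (le_max_left _ _)
    · refine (hab (n + 1)).trans (max_le_max ?_ ?_)
      · exact (le_max_right _ _).trans (le_max_left _ _)
      · exact (le_max_right _ _).trans (le_max_left _ _)
    · exact (le_max_right _ _).trans (le_max_left _ _)
  have h2 : Real.exp (m * max (max |w n| |w (n + 1)|) |v n|) ≤ Real.exp (m * A) + Real.exp (m * A') := by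
    have h3 : m * max (max |w n| |w (n + 1)|) |v n| ≤ m * max A A' :=
      mul_le_mul_of_nonneg_left h1 hm.le
    refine (Real.exp_le_exp.2 h3).trans ?_
    have p1 := Real.exp_pos (m * A)
    have p2 := Real.exp_pos (m * A')
    rcases le_total A A' with h | h
    · rw [max_eq_right h]; linarith
    · rw [max_eq_left h]; linarith
  have hp : (0 : ℝ) ≤ (1 / 2 : ℝ) ^ n := by positivity
  calc (1 / 2 : ℝ) ^ n * Real.exp (m * max (max |w n| |w (n + 1)|) |v n|)
      ≤ (1 / 2 : ℝ) ^ n * (Real.exp (m * A) + Real.exp (m * A')) := mul_le_mul_of_nonneg_left h2 hp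
    _ = _ := by ring

theorem Rec_shift {lam : Fin 2 → ℝ} {idx : ℕ → Fin 2} {v y : ℕ → ℝ} (h : Rec lam idx v y) (s : ℝ) :
    Rec lam idx (fun n => v n + s) (fun n => y n + s) := by
  intro n
  simp only
  rw [Gf_shift, ← h n]

theorem Sm_shift {m : ℝ} (hm : 0 < m) {v y : ℕ → ℝ} (h : Sm m v y) (s : ℝ) :
    Sm m (fun n => v n + s) (fun n => y n + s) := by
  unfold Sm at *
  refine Summable.of_nonneg_of_le (fun n => by positivity) (fun n => ?_)
    (h.mul_left (Real.exp (m * |s|)))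
  set A := max (max |y n| |y (n + 1)|) |v n| with hA
  have h1 : max (max |y n + s| |y (n + 1) + s|) |v n + s| ≤ A + |s| := by
    refine max_le (max_le ?_ ?_) ?_
    · refine (abs_add_le _ _).trans (add_le_add_left ?_ _)
      exact (le_max_left _ _).trans (le_max_left _ _)
    · refine (abs_add_le _ _).trans (add_le_add_left ?_ _)
      exact (le_max_right _ _).trans (le_max_left _ _)
    · refine (abs_add_le _ _).trans (add_le_add_left ?_ _)
      exact le_max_right _ _
  have h2 : Real.exp (m * max (max |y n + s| |y (n + 1) + s|) |v n + s|) ≤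
      Real.exp (m * |s|) * Real.exp (m * A) := by
    rw [← Real.exp_add]
    apply Real.exp_le_exp.2
    have := mul_le_mul_of_nonneg_left h1 hm.le
    linarith
  have hp : (0 : ℝ) ≤ (1 / 2 : ℝ) ^ n := by positivity
  calc (1 / 2 : ℝ) ^ n * Real.exp (m * max (max |y n + s| |y (n + 1) + s|) |v n + s|)
      ≤ (1 / 2 : ℝ) ^ n * (Real.exp (m * |s|) * Real.exp (m * A)) :=
        mul_le_mul_of_nonneg_left h2 hp
    _ = _ := by ring

/-- From one pair of sequences to a whole interval of initial values, shifted to any place. -/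
theorem family {lam : Fin 2 → ℝ} {idx : ℕ → Fin 2} {v y y' : ℕ → ℝ} (M : Set ℝ)
    (hM : ∀ m ∈ M, 0 < m) (hle : ∀ n, y' n ≤ y n) (hy : Rec lam idx v y)
    (hy' : Rec lam idx v y') (hs : ∀ m ∈ M, Sm m v y) (hs' : ∀ m ∈ M, Sm m v y') (s : ℝ) :
    ∃ v₁ : ℕ → ℝ, ∀ c : ℝ, y' 0 + s ≤ c → c ≤ y 0 + s → ∃ w : ℕ → ℝ, w 0 = c ∧
      Rec lam idx v₁ w ∧ ∀ m ∈ M, Sm m v₁ w := by
  refine ⟨fun n => v n + s, fun c hc hc' => ?_⟩
  obtain ⟨w, hw0, hw1, hw2⟩ := fill hle hy hy' (c := c - s) (by linarith) (by linarith)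
  refine ⟨fun n => w n + s, by simp only; rw [hw0]; ring, Rec_shift hw2 s, fun m hm => ?_⟩
  exact Sm_shift (hM m hm) (Sm_between (hM m hm) (hs m hm) (hs' m hm) hw1) s

/-! ### Long intervals for the degenerate generator -/

/-- the pair of sequences started at `(log 20 + L, log 20)` -/
noncomputable def sq (L : ℝ) : ℕ → ℝ × ℝ
  | 0 => (Real.log 20 + L, Real.log 20)
  | n + 1 => sqStep (sq L n)

theorem sq_inv {L : ℝ} (hL : 0 ≤ L) (n : ℕ) : (sq L n).2 ≤ (sq L n).1 ∧ Real.log 20 ≤ (sq L n).2 := by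
  induction n with
  | zero =>
    constructor
    · change Real.log 20 ≤ Real.log 20 + L
      linarith
    · exact le_refl _
  | succ n ih =>
    have h := sq_facts (sq L n) ih.1 ih.2
    exact ⟨h.1, h.2.1⟩

theorem sq_summable {L : ℝ} (hL : 0 ≤ L) :
    Summable (fun n => (1 / 2 : ℝ) ^ n * Real.exp (sq L n).1) := by
  have hW0 : ∀ n, 0 ≤ sqW (sq L n) := by
    intro n
    unfold sqW
    have := le_max_left 0 (((sq L n).1 - (sq L n).2) + Real.log 2 + Real.log 20 + 1 - (sq L n).2)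
    linarith [(sq_inv hL n).1]
  have key : ∀ n, ∑ i ∈ Finset.range n, 2 * ((1 / 2 : ℝ) ^ i * Real.exp (sq L i).1)
      + (1 / 2 : ℝ) ^ n * (Real.exp (sq L n).1 * sqW (sq L n))
      ≤ Real.exp (sq L 0).1 * sqW (sq L 0) := by
    intro n
    induction n with
    | zero => simp
    | succ n ih =>
      rw [Finset.sum_range_succ]
      have h := (sq_facts (sq L n) (sq_inv hL n).1 (sq_inv hL n).2).2.2.2.2.2.2.2
      have hp : (0:ℝ) < (1 / 2 : ℝ) ^ n := by positivity
      have h' := mul_le_mul_of_nonneg_left h hp.le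
      have e : sq L (n + 1) = sqStep (sq L n) := rfl
      rw [e, pow_succ]
      nlinarith [h', ih]
  apply summable_of_sum_range_le (c := Real.exp (sq L 0).1 * sqW (sq L 0) / 2)
  · intro n
    positivity
  · intro n
    have h := key n
    rw [← Finset.mul_sum] at h
    have h0 : 0 ≤ (1 / 2 : ℝ) ^ n * (Real.exp (sq L n).1 * sqW (sq L n)) :=
      mul_nonneg (by positivity) (mul_nonneg (Real.exp_pos _).le (hW0 n))
    linarith

theorem seq_degenerate_long {L : ℝ} (hL : 0 ≤ L) : ∃ (idx : ℕ → Fin 2) (v y y' : ℕ → ℝ),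
    y 0 = Real.log 20 + L ∧ y' 0 = Real.log 20 ∧ (∀ n, y' n ≤ y n) ∧
    Rec (![1, 0] : Fin 2 → ℝ) idx v y ∧ Rec (![1, 0] : Fin 2 → ℝ) idx v y' ∧
    Sm 1 v y ∧ Sm 1 v y' := by
  refine ⟨fun n => sqI (sq L n), fun n => sqV (sq L n), fun n => (sq L n).1, fun n => (sq L n).2,
    rfl, rfl, fun n => (sq_inv hL n).1, ?_, ?_, ?_, ?_⟩
  · intro n
    exact (sq_facts (sq L n) (sq_inv hL n).1 (sq_inv hL n).2).2.2.1
  · intro n
    exact (sq_facts (sq L n) (sq_inv hL n).1 (sq_inv hL n).2).2.2.2.1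
  · unfold Sm
    simp only [one_mul]
    apply Summable.of_nonneg_of_le (fun n => by positivity) _ ((sq_summable hL).mul_left 2)
    intro n
    have hl2 : 0.6931471803 < Real.log 2 := Real.log_two_gt_d9
    have h20 := sq_log20
    obtain ⟨i1, i2⟩ := sq_inv hL n
    obtain ⟨j1, j2⟩ := sq_inv hL (n + 1)
    obtain ⟨_, _, _, _, f5, f6, f7, _⟩ := sq_facts (sq L n) i1 i2
    have e : sq L (n + 1) = sqStep (sq L n) := rfl
    rw [← e] at f5
    have hm : max (max |(sq L n).1| |(sq L (n + 1)).1|) |sqV (sq L n)| ≤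
        (sq L n).1 + Real.log 2 := by
      rw [abs_of_nonneg (by linarith : 0 ≤ (sq L n).1),
        abs_of_nonneg (by linarith : 0 ≤ (sq L (n+1)).1), abs_of_nonneg f6]
      exact max_le (max_le (by linarith) f5) f7
    have hx : Real.exp (max (max |(sq L n).1| |(sq L (n + 1)).1|) |sqV (sq L n)|)
        ≤ 2 * Real.exp (sq L n).1 := by
      refine (Real.exp_le_exp.2 hm).trans (le_of_eq ?_)
      rw [Real.exp_add, Real.exp_log (by norm_num)]
      ring
    have hp : (0:ℝ) ≤ (1 / 2 : ℝ) ^ n := by positivity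
    calc (1 / 2 : ℝ) ^ n * Real.exp (max (max |(sq L n).1| |(sq L (n + 1)).1|) |sqV (sq L n)|)
        ≤ (1 / 2 : ℝ) ^ n * (2 * Real.exp (sq L n).1) := mul_le_mul_of_nonneg_left hx hp
      _ = 2 * ((1 / 2 : ℝ) ^ n * Real.exp (sq L n).1) := by ring
  · unfold Sm
    simp only [one_mul]
    apply Summable.of_nonneg_of_le (fun n => by positivity) _ ((sq_summable hL).mul_left 2)
    intro n
    have hl2 : 0.6931471803 < Real.log 2 := Real.log_two_gt_d9
    have h20 := sq_log20
    obtain ⟨i1, i2⟩ := sq_inv hL n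
    obtain ⟨j1, j2⟩ := sq_inv hL (n + 1)
    obtain ⟨_, _, _, _, f5, f6, f7, _⟩ := sq_facts (sq L n) i1 i2
    have e : sq L (n + 1) = sqStep (sq L n) := rfl
    rw [← e] at f5
    have hm : max (max |(sq L n).2| |(sq L (n + 1)).2|) |sqV (sq L n)| ≤
        (sq L n).1 + Real.log 2 := by
      rw [abs_of_nonneg (by linarith : 0 ≤ (sq L n).2),
        abs_of_nonneg (by linarith : 0 ≤ (sq L (n+1)).2), abs_of_nonneg f6]
      exact max_le (max_le (by linarith) (by linarith)) f7
    have hx : Real.exp (max (max |(sq L n).2| |(sq L (n + 1)).2|) |sqV (sq L n)|)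
        ≤ 2 * Real.exp (sq L n).1 := by
      refine (Real.exp_le_exp.2 hm).trans (le_of_eq ?_)
      rw [Real.exp_add, Real.exp_log (by norm_num)]
      ring
    have hp : (0:ℝ) ≤ (1 / 2 : ℝ) ^ n := by positivity
    calc (1 / 2 : ℝ) ^ n * Real.exp (max (max |(sq L n).2| |(sq L (n + 1)).2|) |sqV (sq L n)|)
        ≤ (1 / 2 : ℝ) ^ n * (2 * Real.exp (sq L n).1) := mul_le_mul_of_nonneg_left hx hp
      _ = 2 * ((1 / 2 : ℝ) ^ n * Real.exp (sq L n).1) := by ring

end Pool.Agent.Y518.BS
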