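import Pool.Agent.Y518.BS.Fill

/-!
The sequences for the indefinite generator, for an arbitrarily long interval of initial values.
-/

set_option autoImplicit false

namespace Pool.Agent.Y518.BS

open MeasureTheory ProbabilityTheory Set Filter Pool.Agent.Helper807.BS
open scoped NNReal ENNReal Topology

/-- the constants -/
noncomputable def cR (R : ℝ) (k : ℕ) : ℝ := 1 / (64 * R ^ 2 * ((k : ℝ) + 1) * ((k : ℝ) + 2))

theorem cR_pos {R : ℝ} (hR : 3 ≤ R) (k : ℕ) : 0 < cR R k := by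
  unfold cR; positivity

theorem cR_tel {R : ℝ} (hR : 3 ≤ R) (k : ℕ) :
    16 * R ^ 2 * cR R k = (1 / 4) * (1 / ((k : ℝ) + 1) - 1 / ((k : ℝ) + 2)) := by
  unfold cR
  have h1 : ((k : ℝ) + 1) ≠ 0 := by positivity
  have h2 : ((k : ℝ) + 2) ≠ 0 := by positivity
  have h3 : R ≠ 0 := by positivity
  field_simp
  ring

theorem cR_le {R : ℝ} (hR : 3 ≤ R) (k : ℕ) : R ^ 2 * cR R k ≤ 1 / 128 := by
  have h := cR_tel hR k
  have h1 : 1 / ((k : ℝ) + 1) - 1 / ((k : ℝ) + 2) ≤ 1 / 2 := by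
    rw [div_sub_div _ _ (by positivity) (by positivity), div_le_div_iff₀ (by positivity) (by norm_num)]
    have : (0 : ℝ) ≤ k := Nat.cast_nonneg k
    nlinarith
  linarith

/-- the values at even times -/
noncomputable def xsR (R x0 : ℝ) : ℕ → ℝ
  | 0 => x0
  | k + 1 => (xsR R x0 k - cR R k / 2) / (1 - cR R k * (xsR R x0 k - cR R k / 2))

theorem xsR_aux {R : ℝ} (hR : 3 ≤ R) {x : ℝ} (hx2 : 7 / 4 ≤ x) (hx1 : x ≤ R + 1 / 4) (k : ℕ) :
    1 ≤ x - cR R k / 2 ∧ x - cR R k / 2 ≤ 2 * R ∧ cR R k * (x - cR R k / 2) ≤ 1 / 2 ∧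
      0 < cR R k * (x - cR R k / 2) := by
  have hc0 := cR_pos hR k
  have hc1 := cR_le hR k
  set c := cR R k with hc
  have hR2 : (9 : ℝ) ≤ R ^ 2 := by nlinarith
  have hc2 : c ≤ 1 / 128 := by
    have : c ≤ R ^ 2 * c := by nlinarith
    linarith
  have hRc : R * c ≤ 1 / 128 := by
    have : R * c ≤ R ^ 2 * c := mul_le_mul_of_nonneg_right (by nlinarith) hc0.le
    linarith
  have h1 : 1 ≤ x - c / 2 := by linarith
  have h2 : x - c / 2 ≤ 2 * R := by linarith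
  refine ⟨h1, h2, ?_, by positivity⟩
  have : c * (x - c / 2) ≤ c * (2 * R) := mul_le_mul_of_nonneg_left h2 hc0.le
  linarith

theorem xsR_bound {R : ℝ} (hR : 3 ≤ R) (x0 : ℝ) (h2 : 2 ≤ x0) (h3 : x0 ≤ R) (k : ℕ) :
    |xsR R x0 k - x0| ≤ (1 / 4) * (1 - 1 / ((k : ℝ) + 1)) := by
  induction k with
  | zero => simp [xsR]
  | succ k ih =>
    have hk : (0 : ℝ) < 1 / ((k : ℝ) + 1) := by positivity
    have hc0 := cR_pos hR k
    have hct := cR_tel hR k
    rw [abs_le] at ih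
    rw [xsR]
    set x := xsR R x0 k with hx
    have hx1 : x ≤ R + 1 / 4 := by linarith [ih.2]
    have hx2 : 7 / 4 ≤ x := by linarith [ih.1]
    obtain ⟨ha2, ha1, hca, hca0⟩ := xsR_aux hR hx2 hx1 k
    set c := cR R k with hc
    have hac : c / 2 ≤ 16 * R ^ 2 * c := by
      have h9 : (1 / 2 : ℝ) ≤ 16 * R ^ 2 := by nlinarith
      have h10 := mul_le_mul_of_nonneg_right h9 hc0.le
      linarith
    have hxa : x = (x - c / 2) + c / 2 := by ring
    set a := x - c / 2 with ha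
    have hd : 0 < 1 - c * a := by linarith
    have hlow : a ≤ a / (1 - c * a) := by
      rw [le_div_iff₀ hd]
      nlinarith
    have hupp : a / (1 - c * a) ≤ a + 16 * R ^ 2 * c := by
      rw [div_le_iff₀ hd]
      have ha4 : a ^ 2 ≤ 4 * R ^ 2 := by nlinarith
      have : 0 ≤ c * (16 * R ^ 2 - a ^ 2 - 16 * R ^ 2 * (c * a)) := by
        apply mul_nonneg hc0.le
        have : 16 * R ^ 2 * (c * a) ≤ 16 * R ^ 2 * (1 / 2) :=
          mul_le_mul_of_nonneg_left hca (by positivity)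
        nlinarith
      nlinarith
    have e2 : ((k + 1 : ℕ) : ℝ) + 1 = (k : ℝ) + 2 := by push_cast; ring
    rw [e2, abs_le]
    constructor
    · linarith [ih.1]
    · linarith [ih.2]

theorem xsR_range {R : ℝ} (hR : 3 ≤ R) (x0 : ℝ) (h2 : 2 ≤ x0) (h3 : x0 ≤ R) (k : ℕ) :
    7 / 4 ≤ xsR R x0 k ∧ xsR R x0 k ≤ R + 1 / 4 := by
  have h := xsR_bound hR x0 h2 h3 k
  have hk : (0 : ℝ) < 1 / ((k : ℝ) + 1) := by positivity
  rw [abs_le] at h
  constructor
  · linarith [h.1]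
  · linarith [h.2]

/-- the values of `exp (2 y)` -/
noncomputable def XR (R x0 : ℝ) (n : ℕ) : ℝ :=
  if n % 2 = 0 then xsR R x0 (n / 2) else 2 * xsR R x0 (n / 2) - cR R (n / 2)

/-- the sequence `y` -/
noncomputable def YR (R x0 : ℝ) (n : ℕ) : ℝ := 1 / 2 * Real.log (XR R x0 n)

/-- the sequence `v` -/
noncomputable def VR (R : ℝ) (n : ℕ) : ℝ :=
  if n % 2 = 0 then 1 / 2 * Real.log (cR R (n / 2)) else -(1 / 2 * Real.log (cR R (n / 2)))

theorem XR_range {R : ℝ} (hR : 3 ≤ R) (x0 : ℝ) (h2 : 2 ≤ x0) (h3 : x0 ≤ R) (n : ℕ) :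
    1 ≤ XR R x0 n ∧ XR R x0 n ≤ 16 * R := by
  obtain ⟨h4, h5⟩ := xsR_range hR x0 h2 h3 (n / 2)
  obtain ⟨h8, h9, -, -⟩ := xsR_aux hR h4 h5 (n / 2)
  have h6 := cR_pos hR (n / 2)
  unfold XR
  split_ifs
  · constructor <;> linarith
  · constructor <;> linarith

theorem exp_half (t : ℝ) (ht : 0 < t) : Real.exp (2 * (1 / 2 * Real.log t)) = t := by
  rw [show 2 * (1 / 2 * Real.log t) = Real.log t by ring, Real.exp_log ht]

theorem YR_rec {R : ℝ} (hR : 3 ≤ R) (x0 : ℝ) (h2 : 2 ≤ x0) (h3 : x0 ≤ R) :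
    Rec (![2, -2] : Fin 2 → ℝ) (fun n => if n % 2 = 0 then 0 else 1) (VR R) (YR R x0) := by
  intro n
  have hc0 := cR_pos hR (n / 2)
  obtain ⟨h4, h5⟩ := xsR_range hR x0 h2 h3 (n / 2)
  obtain ⟨ha2, ha1, hca, hca0⟩ := xsR_aux hR h4 h5 (n / 2)
  have hXp : 0 < XR R x0 (n + 1) := lt_of_lt_of_le one_pos (XR_range hR x0 h2 h3 (n + 1)).1
  by_cases hn : n % 2 = 0
  · simp only
    rw [if_pos hn]
    have e1 : (n + 1) % 2 = 1 := by omega
    have e2 : (n + 1) / 2 = n / 2 := by omega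
    show _ = Gf 2 _ _ _
    unfold Gf
    rw [if_neg (by norm_num)]
    unfold YR
    rw [exp_half _ hXp]
    unfold XR VR
    rw [if_pos hn, if_pos hn, if_neg (by omega), e2, exp_half _ hc0]
    rw [show (1 - 1 / 2 : ℝ) * cR R (n / 2) + 1 / 2 * (2 * xsR R x0 (n / 2) - cR R (n / 2)) =
      xsR R x0 (n / 2) by ring]
    ring
  · simp only
    rw [if_neg hn]
    have e1 : (n + 1) % 2 = 0 := by omega
    have e2 : (n + 1) / 2 = n / 2 + 1 := by omega
    show _ = Gf (-2) _ _ _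
    unfold Gf
    rw [if_neg (by norm_num)]
    have e3 : Real.exp (-2 * YR R x0 (n + 1)) = (XR R x0 (n + 1))⁻¹ := by
      unfold YR
      rw [show -2 * (1 / 2 * Real.log (XR R x0 (n + 1))) =
        -(2 * (1 / 2 * Real.log (XR R x0 (n + 1)))) by ring, Real.exp_neg, exp_half _ hXp]
    have e4 : Real.exp (-2 * VR R n) = cR R (n / 2) := by
      unfold VR
      rw [if_neg hn, show -2 * -(1 / 2 * Real.log (cR R (n / 2))) =
        2 * (1 / 2 * Real.log (cR R (n / 2))) by ring, exp_half _ hc0]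
    rw [e3, e4]
    unfold YR XR
    rw [if_pos e1, if_neg hn, e2, xsR]
    set x := xsR R x0 (n / 2) with hx
    set c := cR R (n / 2) with hc
    have hd : 0 < 1 - c * (x - c / 2) := by linarith
    have e5 : (1 - 1 / 2 : ℝ) * c + 1 / 2 * ((x - c / 2) / (1 - c * (x - c / 2)))⁻¹ =
        (2 * x - c)⁻¹ := by
      have h6 : x - c / 2 ≠ 0 := by linarith
      have h7 : 2 * x - c ≠ 0 := by
        intro h; apply h6; linarith
      rw [inv_div]
      rw [show (2 * x - c) = 2 * (x - c / 2) by ring]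
      field_simp
      ring
    rw [e5, Real.log_inv]
    ring

theorem YR_bound {R : ℝ} (hR : 3 ≤ R) (x0 : ℝ) (h2 : 2 ≤ x0) (h3 : x0 ≤ R) (n : ℕ) :
    |YR R x0 n| ≤ Real.log (16 * R) := by
  obtain ⟨h4, h5⟩ := XR_range hR x0 h2 h3 n
  have h6 : 0 ≤ Real.log (XR R x0 n) := Real.log_nonneg h4
  have h7 : Real.log (XR R x0 n) ≤ Real.log (16 * R) := Real.log_le_log (by linarith) h5
  unfold YR
  rw [abs_of_nonneg (by positivity)]
  linarith

theorem VR_bound {R : ℝ} (hR : 3 ≤ R) (n : ℕ) : |VR R n| ≤ Real.log (8 * R * ((n : ℝ) + 2)) := by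
  have hR0 : (0 : ℝ) < R := by linarith
  have h4 : (0 : ℝ) ≤ ((n / 2 : ℕ) : ℝ) := Nat.cast_nonneg _
  have h1 : |VR R n| =
      1 / 2 * Real.log (64 * R ^ 2 * (((n / 2 : ℕ) : ℝ) + 1) * (((n / 2 : ℕ) : ℝ) + 2)) := by
    have h2 : 0 ≤ Real.log (64 * R ^ 2 * (((n / 2 : ℕ) : ℝ) + 1) * (((n / 2 : ℕ) : ℝ) + 2)) := by
      apply Real.log_nonneg
      have h9 : (9 : ℝ) ≤ R ^ 2 := by nlinarith
      have h10 : (1 : ℝ) ≤ (((n / 2 : ℕ) : ℝ) + 1) * (((n / 2 : ℕ) : ℝ) + 2) := by nlinarith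
      nlinarith
    unfold VR cR
    simp only [one_div, Real.log_inv]
    split_ifs
    · rw [mul_neg, abs_neg, abs_of_nonneg (by positivity)]
    · rw [mul_neg, neg_neg, abs_of_nonneg (by positivity)]
  rw [h1]
  have h3 : (((n / 2 : ℕ) : ℝ)) ≤ n := by exact_mod_cast Nat.div_le_self n 2
  have h5 : 64 * R ^ 2 * (((n / 2 : ℕ) : ℝ) + 1) * (((n / 2 : ℕ) : ℝ) + 2) ≤
      (8 * R * ((n : ℝ) + 2)) ^ 2 := by
    have h6 : (((n / 2 : ℕ) : ℝ) + 1) * (((n / 2 : ℕ) : ℝ) + 2) ≤ ((n : ℝ) + 2) ^ 2 := by nlinarith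
    have h7 : 0 ≤ 64 * R ^ 2 := by positivity
    nlinarith [mul_le_mul_of_nonneg_left h6 h7]
  have h6 := Real.log_le_log (by positivity) h5
  rw [Real.log_pow] at h6
  push_cast at h6
  linarith

theorem YR_sum {R : ℝ} (hR : 3 ≤ R) (m : ℝ) (hm : 0 < m) (y : ℕ → ℝ)
    (hy : ∀ n, |y n| ≤ Real.log (16 * R)) : Sm m (VR R) y := by
  have hR0 : (0 : ℝ) < R := by linarith
  obtain ⟨M, hM⟩ := exists_nat_ge m
  have hs : Summable (fun n : ℕ => ((n : ℝ)) ^ M * (1 / 2 : ℝ) ^ n) :=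
    summable_pow_mul_geometric_of_norm_lt_one M (by norm_num)
  have hs2 : Summable (fun n : ℕ => (((n + 2 : ℕ) : ℝ)) ^ M * (1 / 2 : ℝ) ^ (n + 2)) :=
    (summable_nat_add_iff 2).2 hs
  unfold Sm
  refine Summable.of_nonneg_of_le (fun n => by positivity) (fun n => ?_)
    (hs2.mul_left ((8 * R) ^ M * 4))
  have hn0 : (0 : ℝ) ≤ n := Nat.cast_nonneg n
  have hlog16 : Real.log (16 * R) ≤ Real.log (8 * R * ((n : ℝ) + 2)) := by
    apply Real.log_le_log (by positivity)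
    nlinarith
  have hlog0 : 0 ≤ Real.log (8 * R * ((n : ℝ) + 2)) := by
    apply Real.log_nonneg
    nlinarith
  have h1 : max (max |y n| |y (n + 1)|) |VR R n| ≤ Real.log (8 * R * ((n : ℝ) + 2)) :=
    max_le (max_le ((hy n).trans hlog16) ((hy (n + 1)).trans hlog16)) (VR_bound hR n)
  have h2 : m * max (max |y n| |y (n + 1)|) |VR R n| ≤ M * Real.log (8 * R * ((n : ℝ) + 2)) := by
    calc m * max (max |y n| |y (n + 1)|) |VR R n| ≤ m * Real.log (8 * R * ((n : ℝ) + 2)) :=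
          mul_le_mul_of_nonneg_left h1 hm.le
      _ ≤ M * Real.log (8 * R * ((n : ℝ) + 2)) := mul_le_mul_of_nonneg_right hM hlog0
  have h3 : Real.exp (m * max (max |y n| |y (n + 1)|) |VR R n|) ≤ (8 * R * ((n : ℝ) + 2)) ^ M := by
    refine (Real.exp_le_exp.2 h2).trans ?_
    rw [← Real.log_pow, Real.exp_log (by positivity)]
  calc (1 / 2 : ℝ) ^ n * Real.exp (m * max (max |y n| |y (n + 1)|) |VR R n|)
      ≤ (1 / 2 : ℝ) ^ n * (8 * R * ((n : ℝ) + 2)) ^ M := mul_le_mul_of_nonneg_left h3 (by positivity)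
    _ = (8 * R) ^ M * 4 * ((((n + 2 : ℕ) : ℝ)) ^ M * (1 / 2 : ℝ) ^ (n + 2)) := by
        rw [mul_pow, pow_add]
        push_cast
        ring

/-- For every interval `[a, b]` there are frozen values compatible with sequences of all initial
values in `[a, b]`. -/
theorem indef_family (a b : ℝ) : ∃ (idx : ℕ → Fin 2) (v : ℕ → ℝ), ∀ c : ℝ, a ≤ c → c ≤ b →
    ∃ w : ℕ → ℝ, w 0 = c ∧ Rec (![2, -2] : Fin 2 → ℝ) idx v w ∧ ∀ m : ℝ, 0 < m → Sm m v w := by
  set R : ℝ := max 3 (2 * Real.exp (2 * (b - a))) with hR0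
  have hR : 3 ≤ R := le_max_left _ _
  set s : ℝ := a - 1 / 2 * Real.log 2 with hs
  refine ⟨fun n => if n % 2 = 0 then 0 else 1, fun n => VR R n + s, fun c hac hcb => ?_⟩
  set x0 : ℝ := 2 * Real.exp (2 * (c - a)) with hx0
  have h2 : 2 ≤ x0 := by
    have : 1 ≤ Real.exp (2 * (c - a)) := Real.one_le_exp (by linarith)
    linarith
  have h3 : x0 ≤ R := by
    refine le_trans ?_ (le_max_right _ _)
    have : Real.exp (2 * (c - a)) ≤ Real.exp (2 * (b - a)) := Real.exp_le_exp.2 (by linarith)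
    linarith
  refine ⟨fun n => YR R x0 n + s, ?_, Rec_shift (YR_rec hR x0 h2 h3) s, fun m hm =>
    Sm_shift hm (YR_sum hR m hm _ (YR_bound hR x0 h2 h3)) s⟩
  have h4 : YR R x0 0 = 1 / 2 * Real.log x0 := by
    unfold YR XR
    simp [xsR]
  simp only
  rw [h4, hx0, Real.log_mul (by norm_num) (Real.exp_pos _).ne', Real.log_exp]
  ring

end Pool.Agent.Y518.BS
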